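import Pool.Agent.K1H47.CC.Stm
import Pool.Agent.Y160.T2.Emb

/-! Project CC, piece PRIME: primes where a polynomial takes values which are not powers. -/

set_option autoImplicit false

namespace Pool.Agent.K1H64.CC

open Polynomial Filter Topology

/-- elements near `a ≠ 0` have the same valuation -/
theorem val_near {p : ℕ} [Fact p.Prime] {a x : ℚ_[p]} (ha : a ≠ 0) (h : ‖x - a‖ < ‖a‖) :
    x ≠ 0 ∧ x.valuation = a.valuation := by
  have h1 : ‖x‖ = ‖a‖ := by
    have h2 : x = (x - a) + a := by ring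
    rw [h2, Padic.add_eq_max_of_ne h.ne, max_eq_right h.le]
  have hx : x ≠ 0 := by
    rw [← norm_ne_zero_iff, h1, norm_ne_zero_iff]
    exact ha
  refine ⟨hx, ?_⟩
  rw [Padic.norm_eq_zpow_neg_valuation hx, Padic.norm_eq_zpow_neg_valuation ha] at h1
  have hp : (1 : ℝ) < p := by exact_mod_cast (Fact.out : p.Prime).one_lt
  have h2 := zpow_right_injective₀ (by linarith) hp.ne' h1
  exact neg_injective h2

theorem near (p : ℕ) [Fact p.Prime] (h : ℚ_[p][X]) (α : ℚ_[p]) (hα : h.eval α ≠ 0) :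
    ∀ᶠ e : ℕ in atTop, h.eval (α + (p : ℚ_[p]) ^ e) ≠ 0 ∧
      (h.eval (α + (p : ℚ_[p]) ^ e)).valuation = (h.eval α).valuation := by
  have h1 : Tendsto (fun e : ℕ => α + (p : ℚ_[p]) ^ e) atTop (𝓝 α) := by
    have h2 : Tendsto (fun e : ℕ => (p : ℚ_[p]) ^ e) atTop (𝓝 0) :=
      tendsto_pow_atTop_nhds_zero_of_norm_lt_one Padic.norm_p_lt_one
    simpa using h2.const_add α
  have h3 := (h.continuous.tendsto α).comp h1
  have h4 := (Metric.tendsto_nhds.1 h3) ‖h.eval α‖ (norm_pos_iff.2 hα)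
  filter_upwards [h4] with e he
  rw [dist_eq_norm] at he
  exact val_near hα he

theorem t_PRIME : Pool.Agent.K1H47.CC.S_PRIME := by
  intro K _ _ f q m l hq h1 h2 hlm B
  have : Fact (Irreducible q) := ⟨hq⟩
  have : Module.Finite K (AdjoinRoot q) := (AdjoinRoot.powerBasis hq.ne_zero).finite
  have : NumberField (AdjoinRoot q) := NumberField.of_module_finite K (AdjoinRoot q)
  obtain ⟨p, hp, hB, ⟨τ⟩⟩ := Pool.Agent.Y160.T2.embed_ex (AdjoinRoot q) B
  obtain ⟨g, rfl⟩ := h1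
  have hg : ¬ q ∣ g := by
    intro h
    apply h2
    rw [pow_succ]
    exact mul_dvd_mul_left _ h
  set σ : K →+* ℚ_[p] := τ.comp (AdjoinRoot.of q) with hσ
  set α : ℚ_[p] := τ (AdjoinRoot.root q) with hα
  have hev : ∀ r : K[X], r.eval₂ σ α = τ (AdjoinRoot.mk q r) := by
    intro r
    rw [hσ, hα, ← Polynomial.hom_eval₂]
    congr 1
    rw [← AdjoinRoot.aeval_eq, Polynomial.aeval_def, AdjoinRoot.algebraMap_eq]
  have hqα : q.eval₂ σ α = 0 := by
    rw [hev, AdjoinRoot.mk_self, map_zero]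
  have hgα : g.eval₂ σ α ≠ 0 := by
    rw [hev]
    intro h
    exact hg (AdjoinRoot.mk_eq_zero.1 ((map_eq_zero τ).1 h))
  have hder : (derivative q).eval₂ σ α ≠ 0 := hq.separable.eval₂_derivative_ne_zero σ hqα
  have hroot : (q.map σ).IsRoot α := by
    rw [IsRoot.def, eval_map]
    exact hqα
  obtain ⟨Q1, hQ1⟩ := dvd_iff_isRoot.2 hroot
  have hQ1α : Q1.eval α ≠ 0 := by
    have h3 : (derivative (q.map σ)).eval α = Q1.eval α := by
      rw [hQ1]
      simp
    rw [← h3, derivative_map, eval_map]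
    exact hder
  have hGα : (g.map σ).eval α ≠ 0 := by
    rw [eval_map]; exact hgα
  obtain ⟨E, hE⟩ := eventually_atTop.1 ((near p Q1 α hQ1α).and (near p (g.map σ) α hGα))
  have hp0 : (p : ℚ_[p]) ≠ 0 := by exact_mod_cast (Fact.out : p.Prime).ne_zero
  have hval : ∀ e, E ≤ e → (q ^ m * g).eval₂ σ (α + (p : ℚ_[p]) ^ e) ≠ 0 ∧
      ((q ^ m * g).eval₂ σ (α + (p : ℚ_[p]) ^ e)).valuation =
        (m : ℤ) * e + (m * (Q1.eval α).valuation + ((g.map σ).eval α).valuation) := by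
    intro e he
    obtain ⟨⟨ha, hb⟩, hc, hd⟩ := hE e he
    have h3 : (q ^ m * g).eval₂ σ (α + (p : ℚ_[p]) ^ e) =
        ((p : ℚ_[p]) ^ e * Q1.eval (α + (p : ℚ_[p]) ^ e)) ^ m *
          (g.map σ).eval (α + (p : ℚ_[p]) ^ e) := by
      rw [eval₂_mul, eval₂_pow, ← eval_map, ← eval_map, hQ1, eval_mul]
      simp
    have hpe : (p : ℚ_[p]) ^ e ≠ 0 := pow_ne_zero _ hp0
    rw [h3]
    refine ⟨mul_ne_zero (pow_ne_zero _ (mul_ne_zero hpe ha)) hc, ?_⟩
    rw [Padic.valuation_mul (pow_ne_zero _ (mul_ne_zero hpe ha)) hc, Padic.valuation_pow,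
      Padic.valuation_mul hpe ha, Padic.valuation_pow, Padic.valuation_p, hb, hd]
    ring
  by_cases hl : (l : ℤ) ∣ (m : ℤ) * E + (m * (Q1.eval α).valuation + ((g.map σ).eval α).valuation)
  · obtain ⟨ha, hb⟩ := hval (E + 1) (Nat.le_succ E)
    refine ⟨p, hp, hB, σ, _, ha, ?_⟩
    rw [hb]
    intro h3
    have h4 := dvd_sub h3 hl
    apply hlm
    have h5 : (m : ℤ) * ((E + 1 : ℕ) : ℤ) +
        (m * (Q1.eval α).valuation + ((g.map σ).eval α).valuation) -
        ((m : ℤ) * E + (m * (Q1.eval α).valuation + ((g.map σ).eval α).valuation)) = m := by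
      push_cast
      ring
    rw [h5] at h4
    exact_mod_cast h4
  · obtain ⟨ha, hb⟩ := hval E le_rfl
    refine ⟨p, hp, hB, σ, _, ha, ?_⟩
    rw [hb]
    exact hl

end Pool.Agent.K1H64.CC
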